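import Pool.Agent.H300R2.WEH.Fin
import Pool.Agent.H300R2.WEH.LPOf

/-!
The exponent `1 + ε` for the least prime `p(a, b)`, for almost all moduli `a` and almost all
residues `b ≤ a^ε`.
-/

set_option autoImplicit false

namespace Pool.Agent.Results.MP_5b0a7e_nt.AlmostAllSmallResidues

open Finset
open Pool.Agent.H300R2.WEH

open Classical in
/-- `p(a, b)`: the least prime of the form `a n + b` with `n ≥ 0`, `0` if there is none -/
noncomputable def leastPrime (a b : ℕ) : ℕ :=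
  if h : ∃ p, p.Prime ∧ ∃ n, p = a * n + b then Nat.find h else 0

open Classical in
/-- the `b` with `1 ≤ b ≤ a^ε`, coprime to `a`, with `p(a, b) ≥ a^(1+ε)` -/
noncomputable def bad (ε : ℝ) (a : ℕ) : Finset ℕ :=
  (Icc 1 ⌊(a : ℝ) ^ ε⌋₊).filter (fun b => b.Coprime a ∧ (a : ℝ) ^ (1 + ε) ≤ leastPrime a b)

lemma bad_sub (ε : ℝ) (a : ℕ) :
    bad ε a ⊆ badSet ((a : ℝ) ^ (1 + ε)) a 0 ⌊(a : ℝ) ^ ε⌋₊ := by
  classical
  intro b hb
  unfold bad at hb
  rw [mem_filter, mem_Icc] at hb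
  rw [mem_badSet, mem_Ioc]
  refine ⟨⟨by omega, by omega⟩, hb.2.1, fun n hn => ?_⟩
  have hex : ∃ p, p.Prime ∧ ∃ n, p = a * n + b := ⟨a * n + b, hn, n, rfl⟩
  have h2 := hb.2.2
  unfold leastPrime at h2
  rw [dif_pos hex] at h2
  refine h2.trans ?_
  exact_mod_cast Nat.find_min' hex ⟨hn, n, rfl⟩

/-- **The exponent `1 + ε` for almost all moduli and almost all small residues.** For `0 < ε < 1`
and every `U` there is `C` such that for all `D ≥ 2`, for all `a` with `D < a ≤ 2D` outside a set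
`S` of at most `C D / (log D)^U` moduli, `p(a, b) < a^(1+ε)` for all `b ≤ a^ε` coprime to `a` with
at most `a^ε / (log a)^U` exceptions. -/
theorem result (ε : ℝ) (hε : 0 < ε) (hε1 : ε < 1) (U : ℕ) : ∃ C : ℝ, ∀ D : ℕ, 2 ≤ D →
    ∃ S : Finset ℕ, S ⊆ Ioc D (2 * D) ∧ (S.card : ℝ) ≤ C * (D / Real.log D ^ U) ∧
    ∀ a ∈ Ioc D (2 * D), a ∉ S → ((bad ε a).card : ℝ) ≤ (a : ℝ) ^ ε / Real.log a ^ U := by
  obtain ⟨C, hC⟩ := moduli_of finalS ε hε hε1 U
  refine ⟨C, fun D hD => ?_⟩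
  obtain ⟨S, h1, h2, h3⟩ := hC D hD
  refine ⟨S, h1, h2, fun a ha haS => le_trans ?_ (h3 a ha haS)⟩
  exact_mod_cast card_le_card (bad_sub ε a)

end Pool.Agent.Results.MP_5b0a7e_nt.AlmostAllSmallResidues
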