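import Pool.Agent.H442R2.LP.Core

/-!
`p(a, b) ≤ a^(27/14 + ε)` for almost all moduli `a`, for every residue `b` outside a set of
`(log D)^O(1)` residues `b ≤ D^(27/14)`, `a ∈ (D, 2D]`.
-/

set_option autoImplicit false

namespace Pool.Agent.Results.MP_5b0a7e_nt.BelowSquareAllButFew

open Finset

open Classical in
/-- the moduli `a ∈ (D, 2D]` coprime to `b` for which every prime `p ≡ b (mod a)` is larger than
`a^lam` (for `b < a`: `p(a, b) > a^lam`) -/
noncomputable def badModuli (lam : ℝ) (D b : ℕ) : Finset ℕ :=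
  (Ioc D (2 * D)).filter (fun a : ℕ => Nat.Coprime b a ∧
    ∀ p : ℕ, p.Prime → p ≡ b [MOD a] → (a : ℝ) ^ lam < p)

/-- **The least prime in progressions below the square of the modulus.** -/
theorem result : ∀ ε : ℝ, 0 < ε → ∀ U : ℕ, ∃ C : ℝ, 0 < C ∧ ∀ D : ℕ, 3 ≤ D →
    (((Icc 1 ⌊(D : ℝ) ^ (27 / 14 : ℝ)⌋₊).filter (fun b : ℕ => C * D / Real.log D ^ U <
      ((badModuli (27 / 14 + ε) D b).card : ℝ))).card : ℝ) ≤ C * Real.log D ^ (2 * U + 10) := by
  intro ε hε U
  set lam : ℝ := 27 / 14 + ε with hlam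
  set th : ℝ := (1 / lam + 14 / 27) / 2 with hthdef
  have hl : 27 / 14 < lam := by rw [hlam]; linarith
  have hlp : 0 < lam := by linarith
  have h1 : 1 / lam < 14 / 27 := by
    rw [div_lt_div_iff₀ hlp (by norm_num)]; linarith
  have hth : th < 14 / 27 := by rw [hthdef]; linarith
  have hth0 : 0 < th := by rw [hthdef]; positivity
  have h2 : 1 < lam * th := by
    rw [hthdef]
    have : lam * (1 / lam) = 1 := by field_simp
    nlinarith
  obtain ⟨C0, hC0, hG⟩ := Pool.Agent.H442R2.KF.final2 th hth ((U : ℝ) + 1) (by positivity)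
  obtain ⟨C, hC, h⟩ := Pool.Agent.H442R2.LP.core lam th (27 / 14) hth0 h2 (by linarith) hl.le
    (fun x => Icc 1 ⌊(x : ℝ) ^ th⌋₊) (fun _ _ => True)
    (by
      intro D a x hD ha ha2 _ hDx h2D
      refine Finset.mem_Icc.2 ⟨by omega, ?_⟩
      refine Nat.le_floor (le_trans ?_ h2D)
      exact_mod_cast ha2) U (2 * U + 10 : ℕ) C0 hC0 (by positivity)
    (by
      intro x hx
      have h3 := hG x hx
      have h4 : (2 * ((U : ℝ) + 1) + 8) = ((2 * U + 10 : ℕ) : ℝ) := by push_cast; ring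
      rw [h4] at h3
      exact h3)
  refine ⟨C, hC, ?_⟩
  intro D hD
  have h3 := h D hD
  rw [Real.rpow_natCast] at h3
  have h4 : ∀ b : ℕ, badModuli lam D b =
      Pool.Agent.H442R2.LP.bad (fun _ _ => True) lam D b := by
    intro b
    ext a
    rw [Pool.Agent.H442R2.LP.mem_bad]
    unfold badModuli
    simp only [Finset.mem_filter, Finset.mem_Ioc, true_and]
  simp only [h4]
  exact h3

end Pool.Agent.Results.MP_5b0a7e_nt.BelowSquareAllButFew
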