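import Pool.Agent.H442R2.BX.Asm
import Pool.Agent.H442R2.LP.Core

/-!
Least primes in progressions to prime moduli `q ≤ N^θ`, `θ < 14/27`, for all but boundedly many
residues `b`, `|b| ≤ N`.
-/

set_option autoImplicit false

namespace Pool.Agent.Results.MP_5b0a7e_nt.BoundedlyManyResidues

open Finset

open Classical in
/-- the primes `q ≤ N^θ`, `q ∤ b`, for which no prime `p ≤ N` is `≡ b (mod q)` -/
noncomputable def badModuli (θ : ℝ) (N : ℕ) (b : ℤ) : Finset ℕ :=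
  (Icc 1 ⌊(N : ℝ) ^ θ⌋₊).filter (fun q : ℕ => q.Prime ∧ ¬ (q : ℤ) ∣ b ∧
    ∀ p : ℕ, p.Prime → p ≤ N → ¬ (p : ℤ) ≡ b [ZMOD q])

theorem mem_badModuli {θ : ℝ} {N : ℕ} {b : ℤ} {q : ℕ} : q ∈ badModuli θ N b ↔
    (1 ≤ q ∧ q ≤ ⌊(N : ℝ) ^ θ⌋₊) ∧ q.Prime ∧ ¬ (q : ℤ) ∣ b ∧
    ∀ p : ℕ, p.Prime → p ≤ N → ¬ (p : ℤ) ≡ b [ZMOD q] := by
  unfold badModuli
  simp only [Finset.mem_filter, Finset.mem_Icc]

/-- **Boundedly many exceptional residues for the least prime.** -/
theorem result : ∀ θ κ : ℝ, θ < 14 / 27 → 0 < κ → ∃ C : ℝ, ∀ N : ℕ, 2 ≤ N →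
    (((Icc (-(N : ℤ)) N).filter (fun b : ℤ =>
      κ < ∑ q ∈ badModuli θ N b, 1 / (q : ℝ))).card : ℝ) ≤ C := by
  classical
  intro θ κ hθ hκ
  obtain ⟨C, h⟩ := Pool.Agent.H442R2.BX.FP_thm θ (κ / 5) hθ (by positivity)
  refine ⟨max C 5, ?_⟩
  intro N hN
  rcases Nat.lt_or_ge N 3 with hlt | hge
  · have hN2 : N = 2 := by omega
    subst hN2
    refine le_trans ?_ (le_max_right _ _)
    have h1 : ((Icc (-((2 : ℕ) : ℤ)) (2 : ℕ)).filter (fun b : ℤ =>
      κ < ∑ q ∈ badModuli θ 2 b, 1 / (q : ℝ))).card ≤ 5 := by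
      refine (Finset.card_filter_le _ _).trans ?_
      rw [Int.card_Icc]; norm_num
    exact_mod_cast h1
  · refine le_trans ?_ (le_max_left _ _)
    refine le_trans ?_ (h N hN)
    have hlog : 0 < Real.log N := Real.log_pos (by exact_mod_cast (by omega : 1 < N))
    have hN0 : (0 : ℝ) < N := by exact_mod_cast (by omega : 0 < N)
    have hsub : (Icc (-(N : ℤ)) N).filter (fun b : ℤ =>
        κ < ∑ q ∈ badModuli θ N b, 1 / (q : ℝ)) ⊆
        (Icc (-(N : ℤ)) N).filter (fun a : ℤ => κ / 5 * (N / Real.log N) <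
          ∑ q ∈ (Icc 1 ⌊(N : ℝ) ^ θ⌋₊).filter (fun q : ℕ => q.Prime ∧ ¬ (q : ℤ) ∣ a),
            |Pool.Agent.H442R2.BX.Df (fun _ => 1) N a q|) := by
      intro b hb
      rw [Finset.mem_filter] at hb ⊢
      refine ⟨hb.1, ?_⟩
      have hpi := Pool.Agent.H442R2.LP.piN_ge N hge
      set X : ℝ := (Pool.Agent.H442R2.KF.piN N : ℝ) with hX
      have hXp : 0 < X := by
        by_contra hcon
        have h2 : 5 * X * Real.log N ≤ 0 := by
          have h3 : X ≤ 0 := not_lt.1 hcon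
          have h4 : 5 * X ≤ 0 := by linarith
          exact mul_nonpos_of_nonpos_of_nonneg h4 hlog.le
        linarith
      have hterm : ∀ q ∈ badModuli θ N b,
          X * (1 / (q : ℝ)) ≤ |Pool.Agent.H442R2.BX.Df (fun _ => 1) N b q| := by
        intro q hq
        obtain ⟨h1, h2, h3, h4⟩ := mem_badModuli.1 hq
        have hq1 : (1 : ℝ) < q := by exact_mod_cast h2.one_lt
        have e1 : ∑ p ∈ (Icc 1 N).filter (fun p : ℕ => p.Prime ∧ (p : ℤ) ≡ b [ZMOD q]),
            (1 : ℝ) = 0 := by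
          rw [Finset.sum_eq_zero_iff_of_nonneg (fun _ _ => zero_le_one)]
          intro p hp
          rw [Finset.mem_filter, Finset.mem_Icc] at hp
          exact absurd hp.2.2 (h4 p hp.2.1 hp.1.2)
        have e2 : ∑ p ∈ (Icc 1 N).filter Nat.Prime, (1 : ℝ) = X := by
          rw [Finset.sum_const, nsmul_eq_mul, mul_one, hX]
          rfl
        unfold Pool.Agent.H442R2.BX.Df
        rw [e1, e2, zero_sub, abs_neg, Nat.totient_prime h2, Nat.cast_sub h2.one_le, Nat.cast_one,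
          abs_of_nonneg (div_nonneg hXp.le (by linarith)), mul_one_div]
        exact div_le_div_of_nonneg_left hXp.le (by linarith) (by linarith)
      have h5 : X * ∑ q ∈ badModuli θ N b, 1 / (q : ℝ) ≤
          ∑ q ∈ (Icc 1 ⌊(N : ℝ) ^ θ⌋₊).filter (fun q : ℕ => q.Prime ∧ ¬ (q : ℤ) ∣ b),
            |Pool.Agent.H442R2.BX.Df (fun _ => 1) N b q| := by
        rw [Finset.mul_sum]
        refine (Finset.sum_le_sum hterm).trans
          (Finset.sum_le_sum_of_subset_of_nonneg ?_ (fun _ _ _ => abs_nonneg _))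
        intro q hq
        obtain ⟨h1, h2, h3, h4⟩ := mem_badModuli.1 hq
        rw [Finset.mem_filter, Finset.mem_Icc]
        exact ⟨h1, h2, h3⟩
      refine lt_of_lt_of_le ?_ h5
      have h6 : X * κ < X * ∑ q ∈ badModuli θ N b, 1 / (q : ℝ) :=
        mul_lt_mul_of_pos_left hb.2 hXp
      refine lt_of_le_of_lt ?_ h6
      have h7 : (N : ℝ) / Real.log N ≤ 5 * X := by
        rw [div_le_iff₀ hlog]; exact hpi
      have h8 : κ / 5 * (N / Real.log N) ≤ κ / 5 * (5 * X) :=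
        mul_le_mul_of_nonneg_left h7 (by positivity)
      linarith
    exact_mod_cast Finset.card_le_card hsub

end Pool.Agent.Results.MP_5b0a7e_nt.BoundedlyManyResidues
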