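import Pool.Agent.H358R3.Main

set_option autoImplicit false

/-- (1) For every prime `q`, every residue class `b` modulo `q` prime to `q` contains, below
`2 * q ^ 2`, integers with an even and integers with an odd number of prime factors (counted with
multiplicity). (2) Rigidity: a completely multiplicative function with values `1` and `-1` which is
constant on the positive integers below `2 * q ^ 2` of one residue class prime to `q` is, on the
integers below `2 * q` prime to `q`, either constantly `1` or the quadratic residue symbol. -/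
theorem Pool.Agent.Results.MP_5b0a7e_nt.ParityBelowTwoSquares.result :
    (∀ q : ℕ, q.Prime → ∀ b : ℕ, ¬ q ∣ b → ∀ j : ℕ, j < 2 →
      ∃ N : ℕ, 0 < N ∧ N < 2 * q ^ 2 ∧ N ≡ b [MOD q] ∧
        ArithmeticFunction.cardFactors N % 2 = j) ∧
    (∀ q : ℕ, q.Prime → ∀ f : ℕ → ℤ, (∀ m n : ℕ, m ≠ 0 → n ≠ 0 → f (m * n) = f m * f n) →
      (∀ n : ℕ, n ≠ 0 → f n = 1 ∨ f n = -1) → ∀ b : ℕ, ¬ q ∣ b → ∀ e : ℤ,
      (∀ N : ℕ, 0 < N → N < 2 * q ^ 2 → N ≡ b [MOD q] → f N = e) →
      (∀ n : ℕ, n < 2 * q → ¬ q ∣ n → f n = 1) ∨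
      (∀ n : ℕ, n < 2 * q → ¬ q ∣ n → (f n = 1 ↔ IsSquare (n : ZMod q)))) := by
  constructor
  · intro q hq b hb j hj
    obtain ⟨N, h1, h2, h3, h4⟩ := Pool.Agent.H358R3.liouville q hq b hb j hj
    refine ⟨N, h1, h2, h3, ?_⟩
    rw [← h4, ArithmeticFunction.cardFactors_apply]
    congr 1
    unfold Pool.Agent.H358R3.om
    simp
  · intro q hq f hmul hpm b hb e h
    haveI : Fact q.Prime := ⟨hq⟩
    have hc : ∀ n : ℕ, ¬ q ∣ n → (n : ZMod q) ≠ 0 := fun n hn => by
      rw [Ne, ZMod.natCast_eq_zero_iff]; exact hn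
    have hC : Pool.Agent.H358R3.Const q f b e := fun N h0 h1 h2 =>
      h N h0 h1 ((ZMod.natCast_eq_natCast_iff _ _ _).1 h2)
    rcases Pool.Agent.H358R3.rigid (q := q) ⟨hmul, hpm⟩ (hc b hb) hC with h1 | h1
    · exact Or.inl fun n hn hqn => h1 n hn (hc n hqn)
    · exact Or.inr fun n hn hqn => h1 n hn (hc n hqn)
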